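import Pool.Agent.Work.MP_3d4872_al.Pb.Bound

/-!
# MP_3d4872_al: abelian subspaces of nilpotent elements
-/

set_option autoImplicit false

namespace Pool.Agent.Work.MP_3d4872_al.Pb

open LieAlgebra Module Set

attribute [local instance 100] LieRing.ofAssociativeRing

variable {L : Type*} [LieRing L] [LieAlgebra ℂ L]

/-- `L` contains an abelian subspace of dimension `s` of elements `X` with `ad X` nilpotent. -/
def AbNil (L : Type*) [LieRing L] [LieAlgebra ℂ L] (s : ℕ) : Prop :=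
  ∃ U : Submodule ℂ L, finrank ℂ U = s ∧ (∀ X ∈ U, ∀ Y ∈ U, ⁅X, Y⁆ = 0) ∧
    ∀ X ∈ U, IsNilpotent (LieAlgebra.ad ℂ L X)

theorem AbNil.of_injective {W : Type*} [AddCommGroup W] [Module ℂ W] (j : W →ₗ[ℂ] L)
    (hj : Function.Injective j) (h1 : ∀ v w, ⁅j v, j w⁆ = 0)
    (h2 : ∀ v, IsNilpotent (LieAlgebra.ad ℂ L (j v))) : AbNil L (finrank ℂ W) := by
  refine ⟨LinearMap.range j, LinearMap.finrank_range_of_inj hj, ?_, ?_⟩
  · rintro _ ⟨v, rfl⟩ _ ⟨w, rfl⟩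
    exact h1 v w
  · rintro _ ⟨v, rfl⟩
    exact h2 v

theorem ad_nilpotent_equiv {L' : Type*} [LieRing L'] [LieAlgebra ℂ L'] (e : L ≃ₗ⁅ℂ⁆ L') {X : L}
    (h : IsNilpotent (LieAlgebra.ad ℂ L X)) : IsNilpotent (LieAlgebra.ad ℂ L' (e X)) := by
  obtain ⟨k, hk⟩ := h
  have h1 : ∀ (m : ℕ) (Z : L), ((LieAlgebra.ad ℂ L' (e X)) ^ m) (e Z)
      = e (((LieAlgebra.ad ℂ L X) ^ m) Z) := by
    intro m
    induction m with
    | zero => intro Z; simp
    | succ m ih =>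
      intro Z
      rw [pow_succ', pow_succ', Module.End.mul_apply, Module.End.mul_apply, ih,
        LieAlgebra.ad_apply, LieAlgebra.ad_apply, LieEquiv.map_lie]
  refine ⟨k, ?_⟩
  apply LinearMap.ext
  intro Z'
  obtain ⟨Z, rfl⟩ := e.surjective Z'
  change ((LieAlgebra.ad ℂ L' (e X)) ^ k) (e Z) = 0
  rw [h1, hk]
  simp

theorem AbNil.transport {L' : Type*} [LieRing L'] [LieAlgebra ℂ L'] (e : L ≃ₗ⁅ℂ⁆ L') {s : ℕ}
    (h : AbNil L s) : AbNil L' s := by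
  obtain ⟨U, h0, h1, h2⟩ := h
  refine ⟨U.map (e : L →ₗ[ℂ] L'), ?_, ?_, ?_⟩
  · rw [← h0]
    exact LinearEquiv.finrank_map_eq (e : L ≃ₗ[ℂ] L') U
  · rintro _ ⟨X, hX, rfl⟩ _ ⟨Y, hY, rfl⟩
    change ⁅e X, e Y⁆ = 0
    rw [← LieEquiv.map_lie, h1 X hX Y hY, map_zero]
  · rintro _ ⟨X, hX, rfl⟩
    exact ad_nilpotent_equiv e (h2 X hX)

/-- An ideal `J` with an abelian subspace of ad-nilpotent elements of dimension at least
`dim J / c`. -/
def Big (c : ℕ) (J : LieIdeal ℂ L) : Prop :=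
  ∃ U : Submodule ℂ L, U ≤ J.toSubmodule ∧ finrank ℂ J.toSubmodule ≤ c * finrank ℂ U ∧
    (∀ X ∈ U, ∀ Y ∈ U, ⁅X, Y⁆ = 0) ∧ ∀ X ∈ U, IsNilpotent (LieAlgebra.ad ℂ L X)

theorem big_bot (c : ℕ) : Big c (⊥ : LieIdeal ℂ L) := by
  refine ⟨⊥, bot_le, ?_, ?_, ?_⟩
  · have h : (⊥ : LieIdeal ℂ L).toSubmodule = ⊥ := LieSubmodule.bot_toSubmodule ..
    rw [h]
    simp
  · intro X hX Y _
    rw [(Submodule.mem_bot ℂ).1 hX, zero_lie]
  · intro X hX
    rw [(Submodule.mem_bot ℂ).1 hX, map_zero]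
    exact IsNilpotent.zero

theorem Big.sup [FiniteDimensional ℂ L] {c : ℕ} {I J : LieIdeal ℂ L} (hI : Big c I)
    (hJ : Big c J) (hd : I ⊓ J = ⊥) : Big c (I ⊔ J) := by
  obtain ⟨U, hU0, hU1, hU2, hU3⟩ := hI
  obtain ⟨V, hV0, hV1, hV2, hV3⟩ := hJ
  have hz : ∀ X ∈ U, ∀ Y ∈ V, ⁅X, Y⁆ = 0 := by
    intro X hX Y hY
    have h1 : ⁅X, Y⁆ ∈ I ⊓ J :=
      ⟨lie_mem_left ℂ L I _ _ (hU0 hX), lie_mem_right ℂ L J _ _ (hV0 hY)⟩
    rw [hd] at h1
    simpa using h1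
  have hd' : I.toSubmodule ⊓ J.toSubmodule = ⊥ := by
    rw [← LieSubmodule.inf_toSubmodule, hd]
    exact LieSubmodule.bot_toSubmodule ..
  have hd2 : U ⊓ V = ⊥ := by
    rw [eq_bot_iff, ← hd']
    exact inf_le_inf hU0 hV0
  refine ⟨U ⊔ V, ?_, ?_, ?_, ?_⟩
  · rw [LieSubmodule.sup_toSubmodule]
    exact sup_le_sup hU0 hV0
  · have h1 := Submodule.finrank_sup_add_finrank_inf_eq U V
    have h2 := Submodule.finrank_sup_add_finrank_inf_eq I.toSubmodule J.toSubmodule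
    rw [hd2, finrank_bot] at h1
    rw [hd', finrank_bot] at h2
    rw [LieSubmodule.sup_toSubmodule]
    have h3 : finrank ℂ ↥(U ⊔ V) = finrank ℂ U + finrank ℂ V := by omega
    rw [h3, mul_add]
    omega
  · intro X hX Y hY
    obtain ⟨X1, hX1, X2, hX2, rfl⟩ := Submodule.mem_sup.1 hX
    obtain ⟨Y1, hY1, Y2, hY2, rfl⟩ := Submodule.mem_sup.1 hY
    rw [add_lie, lie_add, lie_add, hU2 _ hX1 _ hY1, hz _ hX1 _ hY2, hV2 _ hX2 _ hY2,
      ← lie_skew, hz _ hY1 _ hX2]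
    simp
  · intro X hX
    obtain ⟨X1, hX1, X2, hX2, rfl⟩ := Submodule.mem_sup.1 hX
    rw [map_add]
    refine Commute.isNilpotent_add ?_ (hU3 _ hX1) (hV3 _ hX2)
    rw [commute_iff_lie_eq, ← LieHom.map_lie, hz _ hX1 _ hX2, map_zero]

/-- An ideal with `AbNil`. -/
theorem Big.of_abNil [FiniteDimensional ℂ L] {c s : ℕ} {I : LieIdeal ℂ L} (h : AbNil I s)
    (hs : finrank ℂ I ≤ c * s) : Big c I := by
  obtain ⟨U, h0, h1, h2⟩ := h
  refine ⟨U.map (I.toSubmodule.subtype), ?_, ?_, ?_, ?_⟩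
  · rintro _ ⟨X, -, rfl⟩
    exact X.2
  · have h3 : finrank ℂ (U.map (I.toSubmodule.subtype)) = s := by
      rw [← h0]
      exact Submodule.finrank_map_subtype_eq I.toSubmodule U
    rw [h3]
    exact hs
  · rintro _ ⟨X, hX, rfl⟩ _ ⟨Y, hY, rfl⟩
    exact congrArg Subtype.val (h1 X hX Y hY)
  · rintro _ ⟨X, hX, rfl⟩
    obtain ⟨k, hk⟩ := h2 X hX
    have h3 : ∀ (m : ℕ) (Z : I), ((LieAlgebra.ad ℂ L (X : L)) ^ m) (Z : L)
        = (((LieAlgebra.ad ℂ I X) ^ m) Z : I) := by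
      intro m
      induction m with
      | zero => intro Z; simp
      | succ m ih =>
        intro Z
        rw [pow_succ', pow_succ', Module.End.mul_apply, Module.End.mul_apply, ih]
        rfl
    refine ⟨k + 1, ?_⟩
    apply LinearMap.ext
    intro Z
    rw [pow_succ, Module.End.mul_apply, LieAlgebra.ad_apply]
    have h4 : ⁅(X : L), Z⁆ ∈ I := lie_mem_left ℂ L I _ _ X.2
    have h5 := h3 k ⟨⁅(X : L), Z⁆, h4⟩
    rw [hk] at h5
    exact h5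

/-- If the minimal ideals are big then so is the whole semisimple Lie algebra. -/
theorem big_top [FiniteDimensional ℂ L] [LieAlgebra.IsSemisimple ℂ L] {c : ℕ}
    (h : ∀ I : LieIdeal ℂ L, IsAtom I → Big c I) : Big c (⊤ : LieIdeal ℂ L) := by
  obtain ⟨J, hJ, hmax⟩ := WellFounded.has_min
    (r := fun I J : LieIdeal ℂ L => I > J) wellFounded_gt {J | Big c J} ⟨⊥, big_bot c⟩
  by_cases hJt : J = ⊤
  · rw [← hJt]
    exact hJ
  · exfalso
    have h1 : ∃ I : LieIdeal ℂ L, IsAtom I ∧ ¬ I ≤ J := by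
      by_contra hcon
      push Not at hcon
      apply hJt
      rw [eq_top_iff, ← LieAlgebra.IsSemisimple.sSup_atoms_eq_top (R := ℂ) (L := L)]
      exact sSup_le fun I hI => hcon I hI
    obtain ⟨I, hI, hIJ⟩ := h1
    have h2 : J ⊓ I = ⊥ := by
      rcases hI.le_iff.1 (inf_le_right : J ⊓ I ≤ I) with h3 | h3
      · exact h3
      · exact absurd (h3 ▸ inf_le_left) hIJ
    have h3 : Big c (J ⊔ I) := hJ.sup (h I hI) h2
    apply hmax _ h3
    exact lt_of_le_of_ne le_sup_left fun h4 => hIJ (h4 ▸ le_sup_right)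

theorem killing_of_nil [FiniteDimensional ℂ L] {X Y : L} (hXY : ⁅X, Y⁆ = 0)
    (h : IsNilpotent (LieAlgebra.ad ℂ L X)) : killingForm ℂ L X Y = 0 := by
  rw [killingForm_apply_apply]
  have hc : Commute (LieAlgebra.ad ℂ L X : Module.End ℂ L) (LieAlgebra.ad ℂ L Y) := by
    rw [commute_iff_lie_eq, ← LieHom.map_lie, hXY, map_zero]
  have h1 : IsNilpotent ((LieAlgebra.ad ℂ L X : Module.End ℂ L) * LieAlgebra.ad ℂ L Y) :=
    hc.isNilpotent_mul_right h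
  exact (LinearMap.isNilpotent_trace_of_isNilpotent h1).eq_zero

/-- The bound for two subspaces. -/
theorem param_bound_sub [FiniteDimensional ℂ L] [LieAlgebra.IsKilling ℂ L] {U V : Submodule ℂ L}
    (hUU : ∀ X ∈ U, ∀ Y ∈ U, ⁅X, Y⁆ = 0) (hUV : ∀ X ∈ U, ∀ Y ∈ V, ⁅X, Y⁆ = 0)
    (hK : ∀ X ∈ U, ∀ Y ∈ V, killingForm ℂ L X Y = 0) {D : ℕ} (hD : HasList L D) :
    2 * (finrank ℂ U * finrank ℂ V) ≤ D + 2 * finrank ℂ L := by
  set bU := finBasis ℂ U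
  set bV := finBasis ℂ V
  have hx : LinearIndependent ℂ (fun i => (bU i : L)) :=
    bU.linearIndependent.map' U.subtype (Submodule.ker_subtype U)
  have hy : LinearIndependent ℂ (fun i => (bV i : L)) :=
    bV.linearIndependent.map' V.subtype (Submodule.ker_subtype V)
  exact param_bound (x := fun i => (bU i : L)) (y := fun i => (bV i : L))
    ⟨fun i j => hUU _ (bU i).2 _ (bU j).2, fun i j => hUV _ (bU i).2 _ (bV j).2,
      fun i j => hK _ (bU i).2 _ (bV j).2⟩ hx hy hD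

theorem AbNil.bound [FiniteDimensional ℂ L] [LieAlgebra.IsKilling ℂ L] {s D : ℕ} (h : AbNil L s)
    (hD : HasList L D) : 2 * (s * s) ≤ D + 2 * finrank ℂ L := by
  obtain ⟨U, h0, h1, h2⟩ := h
  have h3 := param_bound_sub h1 h1 (fun X hX Y hY => killing_of_nil (h1 X hX Y hY) (h2 X hX)) hD
  rwa [h0] at h3

theorem Big.bound [FiniteDimensional ℂ L] [LieAlgebra.IsKilling ℂ L] {c D : ℕ}
    (h : Big c (⊤ : LieIdeal ℂ L)) (hD : HasList L D) :
    2 * finrank ℂ L ^ 2 ≤ c ^ 2 * (D + 2 * finrank ℂ L) := by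
  obtain ⟨U, -, h1, h2, h3⟩ := h
  have h4 := AbNil.bound ⟨U, rfl, h2, h3⟩ hD
  have h5 : finrank ℂ L ≤ c * finrank ℂ U := by
    have h6 : finrank ℂ (⊤ : LieIdeal ℂ L).toSubmodule = finrank ℂ L := by
      rw [LieSubmodule.top_toSubmodule]
      exact finrank_top ℂ L
    rwa [h6] at h1
  calc 2 * finrank ℂ L ^ 2 ≤ 2 * (c * finrank ℂ U) ^ 2 :=
        Nat.mul_le_mul_left 2 (Nat.pow_le_pow_left h5 2)
    _ = c ^ 2 * (2 * (finrank ℂ U * finrank ℂ U)) := by ring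
    _ ≤ c ^ 2 * (D + 2 * finrank ℂ L) := Nat.mul_le_mul_left _ h4

end Pool.Agent.Work.MP_3d4872_al.Pb
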