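import Pool.Agent.Work.MP_3d4872_al.General

/-!
# MP_3d4872_al: operators with values in an abelian subspace

`combo x y r = ∑ r j k x_j ⊗ κ(y_k, ·)` for `x_j` commuting with all `x_i`, `y_k` and orthogonal to
all `y_k`: all these operators give compatible brackets, and the operator is determined by the
bracket.
-/

set_option autoImplicit false

namespace Pool.Agent.Work.MP_3d4872_al.Pb

open LieAlgebra Module

variable {L : Type*} [LieRing L] [LieAlgebra ℂ L]

/-- An operator with vanishing torsion terms gives a compatible bracket. -/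
theorem compatible_of_facts {R : L →ₗ[ℂ] L} (h1 : ∀ X Y, ⁅R X, R Y⁆ = 0)
    (h2 : ∀ X Y, R ⁅R X, Y⁆ = 0) (h3 : ∀ X, R (R X) = 0) : Compatible (opBracket R) := by
  have h2' : ∀ X Y : L, R ⁅X, R Y⁆ = 0 := by
    intro X Y
    rw [← lie_skew, map_neg, h2, neg_zero]
  have key : ∀ c : ℂ, IsLieBr (ownBracket L + c • opBracket R) := by
    intro c
    refine isLieBr_of_conj _ (LinearMap.id + c • R) (LinearMap.id - c • R) (fun X => ?_)
      (fun X Y => ?_)
    · simp only [LinearMap.add_apply, LinearMap.sub_apply, LinearMap.id_apply, LinearMap.smul_apply,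
        map_sub, map_smul, h3, smul_zero]
      module
    · simp only [LinearMap.add_apply, LinearMap.sub_apply, LinearMap.id_apply,
        LinearMap.smul_apply, ownBracket_apply, opBracket_apply, add_lie, lie_add, smul_lie,
        lie_smul, h1, smul_zero, add_zero, map_add, map_smul, h2, h2', smul_sub, smul_add]
      module
  refine ⟨⟨fun X => ?_, fun X Y Z => ?_⟩, key⟩
  · rw [opBracket_apply, lie_self, map_zero, sub_zero, ← lie_skew, neg_add_cancel]
  · have k1 := (key 1).2 X Y Z
    have k2 := (key (-1)).2 X Y Z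
    have k0 := lie_jacobi X Y Z
    simp only [LinearMap.add_apply, LinearMap.smul_apply, ownBracket_apply, one_smul, neg_smul,
      map_add, map_neg, lie_add, lie_neg, LinearMap.neg_apply] at k1 k2
    set a := opBracket R X (opBracket R Y Z)
    set b := opBracket R Y (opBracket R Z X)
    set c := opBracket R Z (opBracket R X Y)
    have : (2 : ℂ) • (a + b + c) = 0 := by
      linear_combination (norm := module) k1 + k2 - (2 : ℂ) • k0
    exact (smul_eq_zero.mp this).resolve_left two_ne_zero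

/-- The conditions on the two families. -/
structure Good {s t : ℕ} (x : Fin s → L) (y : Fin t → L) : Prop where
  xx : ∀ i j, ⁅x i, x j⁆ = 0
  xy : ∀ i j, ⁅x i, y j⁆ = 0
  kill : ∀ i j, killingForm ℂ L (x i) (y j) = 0

/-- `r ↦ ∑ r j k x_j ⊗ κ(y_k, ·)`. -/
noncomputable def combo {s t : ℕ} (x : Fin s → L) (y : Fin t → L) :
    (Fin s → Fin t → ℂ) →ₗ[ℂ] (L →ₗ[ℂ] L) where
  toFun r := ∑ j, ∑ k, r j k • rankOne (x j) (y k)
  map_add' r r' := by
    simp only [Pi.add_apply, add_smul, Finset.sum_add_distrib]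
  map_smul' c r := by
    simp only [Pi.smul_apply, smul_eq_mul, mul_smul, Finset.smul_sum, RingHom.id_apply]

theorem combo_apply {s t : ℕ} (x : Fin s → L) (y : Fin t → L) (r : Fin s → Fin t → ℂ) (X : L) :
    combo x y r X = ∑ j, (∑ k, r j k * killingForm ℂ L (y k) X) • x j := by
  simp [combo, LinearMap.sum_apply, Finset.sum_smul, mul_smul]

theorem combo_of_zero {s t : ℕ} (x : Fin s → L) (y : Fin t → L) (r : Fin s → Fin t → ℂ) {X : L}
    (h : ∀ k, killingForm ℂ L (y k) X = 0) : combo x y r X = 0 := by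
  rw [combo_apply]
  refine Finset.sum_eq_zero fun j _ => ?_
  rw [Finset.sum_eq_zero fun k _ => by rw [h k, mul_zero], zero_smul]

theorem combo_compatible {s t : ℕ} {x : Fin s → L} {y : Fin t → L} (h : Good x y)
    (r : Fin s → Fin t → ℂ) : Compatible (opBracket (combo x y r)) := by
  have hyx : ∀ k j, ⁅y k, x j⁆ = 0 := fun k j => by rw [← lie_skew, h.xy, neg_zero]
  apply compatible_of_facts
  · intro X Y
    rw [combo_apply, combo_apply, sum_lie_sum]
    refine Finset.sum_eq_zero fun i _ => Finset.sum_eq_zero fun j _ => ?_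
    rw [smul_lie, lie_smul, h.xx, smul_zero, smul_zero]
  · intro X Y
    rw [combo_apply x y r X, sum_lie, map_sum]
    refine Finset.sum_eq_zero fun j _ => ?_
    rw [smul_lie, map_smul, combo_of_zero x y r, smul_zero]
    intro k
    rw [← LieModule.traceForm_apply_lie_apply, hyx, map_zero, LinearMap.zero_apply]
  · intro X
    rw [combo_apply x y r X, map_sum]
    refine Finset.sum_eq_zero fun j _ => ?_
    rw [map_smul, combo_of_zero x y r, smul_zero]
    intro k
    rw [LieModule.traceForm_comm, h.kill]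

theorem trace_combo_comp_ad [FiniteDimensional ℂ L] {s t : ℕ} {x : Fin s → L} {y : Fin t → L}
    (h : Good x y) (r : Fin s → Fin t → ℂ) (Z : L) :
    LinearMap.trace ℂ L (combo x y r ∘ₗ LieAlgebra.ad ℂ L Z) = 0 := by
  have e : combo x y r ∘ₗ (LieAlgebra.ad ℂ L Z : L →ₗ[ℂ] L)
      = ∑ j, ∑ k, r j k • (rankOne (x j) (y k) ∘ₗ (LieAlgebra.ad ℂ L Z : L →ₗ[ℂ] L)) := by
    apply LinearMap.ext
    intro X
    simp only [combo, LinearMap.coe_mk, AddHom.coe_mk, LinearMap.comp_apply, LinearMap.sum_apply,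
      LinearMap.smul_apply]
  rw [e, map_sum]
  refine Finset.sum_eq_zero fun j _ => ?_
  rw [map_sum]
  refine Finset.sum_eq_zero fun k _ => ?_
  rw [map_smul, trace_rankOne_comp_ad (h.xy j k), smul_zero]

/-- The operator is determined by the bracket. -/
theorem combo_inj [FiniteDimensional ℂ L] [LieAlgebra.IsKilling ℂ L] {s t : ℕ} {x : Fin s → L}
    {y : Fin t → L} (h : Good x y) (hx : LinearIndependent ℂ x) (hy : LinearIndependent ℂ y)
    {r : Fin s → Fin t → ℂ} (h0 : ∀ X Y, opBracket (combo x y r) X Y = 0) : r = 0 := by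
  have hD : ∀ X Y, combo x y r ⁅X, Y⁆ = ⁅combo x y r X, Y⁆ + ⁅X, combo x y r Y⁆ := by
    intro X Y
    have := h0 X Y
    rw [opBracket_apply, sub_eq_zero] at this
    exact this.symm
  have hR : ∀ X, combo x y r X = 0 := by
    intro X
    apply eq_zero_of_killing
    intro Y
    rw [killing_derivation _ hD, trace_combo_comp_ad h]
  have h1 : ∀ j, ∑ k, r j k • y k = 0 := by
    intro j
    apply eq_zero_of_killing
    intro X
    have h2 := hR X
    rw [combo_apply] at h2
    have h3 := Fintype.linearIndependent_iff.1 hx _ h2 j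
    rw [map_sum, LinearMap.sum_apply]
    simpa using h3
  ext j k
  exact Fintype.linearIndependent_iff.1 hy _ (h1 j) k

/-- An operator is paired with `ad`. -/
theorem exists_zmap (L : Type*) [LieRing L] [LieAlgebra ℂ L] [FiniteDimensional ℂ L]
    [LieAlgebra.IsKilling ℂ L] : ∃ z : (L →ₗ[ℂ] L) →ₗ[ℂ] L, ∀ D : L →ₗ[ℂ] L,
      (∀ X Y, D ⁅X, Y⁆ = ⁅D X, Y⁆ + ⁅X, D Y⁆) → z D = 0 → D = 0 := by
  set B := (killingForm ℂ L).toDual (LieAlgebra.IsKilling.killingForm_nondegenerate ℂ L) with hB
  set T : (L →ₗ[ℂ] L) →ₗ[ℂ] (L →ₗ[ℂ] ℂ) :=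
    { toFun := fun D => (LinearMap.trace ℂ L) ∘ₗ
        ((LinearMap.llcomp ℂ L L L D) ∘ₗ (LieAlgebra.ad ℂ L : L →ₗ[ℂ] Module.End ℂ L))
      map_add' := by
        intro D D'
        ext X
        simp [LinearMap.add_comp]
      map_smul' := by
        intro c D
        ext X
        simp [LinearMap.smul_comp] } with hT
  have hTa : ∀ D Z, T D Z = LinearMap.trace ℂ L (D ∘ₗ (LieAlgebra.ad ℂ L Z : L →ₗ[ℂ] L)) :=
    fun D Z => rfl
  refine ⟨(B.symm : (L →ₗ[ℂ] ℂ) →ₗ[ℂ] L) ∘ₗ T, fun D hD h => ?_⟩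
  have h1 : T D = 0 := by
    have h2 : B.symm (T D) = 0 := h
    simpa using h2
  apply LinearMap.ext
  intro X
  rw [LinearMap.zero_apply]
  apply eq_zero_of_killing
  intro Y
  rw [killing_derivation D hD, ← hTa, h1, LinearMap.zero_apply]

end Pool.Agent.Work.MP_3d4872_al.Pb
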