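import Pool.Agent.Work.MP_3d4872_al.Pb.Dim

/-!
# MP_3d4872_al: the automorphisms of a bilinear map are locally embedded

Let `μ` be a bilinear map on the finite-dimensional space `V` and `z : End V → V` a linear map such
that a derivation `D` of `μ` with `z D = 0` is `0`. Then the set of the automorphisms of `μ` is
locally embedded into `V`.
-/

set_option autoImplicit false

namespace Pool.Agent.Work.MP_3d4872_al.Pb

open Set Topology Module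
open scoped NNReal ENNReal

variable {V : Type*} [NormedAddCommGroup V] [NormedSpace ℂ V]

/-- The defect of being a derivation. -/
noncomputable def dfct (μ : V →L[ℂ] V →L[ℂ] V) : (V →L[ℂ] V) →ₗ[ℂ] (V →L[ℂ] V →L[ℂ] V) where
  toFun D := (ContinuousLinearMap.compL ℂ V V V D).comp μ - μ.comp D -
    ((ContinuousLinearMap.compL ℂ V V V).flip D).comp μ
  map_add' D D' := by
    ext x y
    simp
    abel
  map_smul' c D := by
    ext x y
    simp [smul_sub]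

theorem dfct_apply (μ : V →L[ℂ] V →L[ℂ] V) (D : V →L[ℂ] V) (x y : V) :
    dfct μ D x y = D (μ x y) - μ (D x) y - μ x (D y) := by
  simp [dfct]

/-- Two linear maps without a common kernel bound the norm. -/
theorem exists_bound {E F G : Type*} [NormedAddCommGroup E] [NormedSpace ℂ E]
    [FiniteDimensional ℂ E] [NormedAddCommGroup F] [NormedSpace ℂ F] [NormedAddCommGroup G]
    [NormedSpace ℂ G] (A : E →ₗ[ℂ] F) (z : E →ₗ[ℂ] G) (h : ∀ D, A D = 0 → z D = 0 → D = 0) :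
    ∃ K : ℝ≥0, 0 < K ∧ ∀ D, ‖D‖ ≤ K * (‖A D‖ + ‖z D‖) := by
  have hker : LinearMap.ker (A.prod z) = ⊥ := by
    rw [LinearMap.ker_eq_bot']
    intro D hD
    exact h D (congrArg Prod.fst hD) (congrArg Prod.snd hD)
  obtain ⟨K, hK0, hK⟩ := (A.prod z).exists_antilipschitzWith hker
  refine ⟨K, hK0, fun D => ?_⟩
  have e1 := hK.le_mul_dist D 0
  rw [map_zero, dist_zero_right, dist_zero_right] at e1
  refine e1.trans (mul_le_mul_of_nonneg_left ?_ K.coe_nonneg)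
  rw [Prod.norm_def]
  exact max_le (le_add_of_nonneg_right (norm_nonneg _)) (le_add_of_nonneg_left (norm_nonneg _))

theorem locEmb_aut [FiniteDimensional ℂ V] (μ : V →L[ℂ] V →L[ℂ] V) (z : (V →L[ℂ] V) →ₗ[ℂ] V)
    (hz : ∀ D : V →L[ℂ] V, (∀ x y, D (μ x y) = μ (D x) y + μ x (D y)) → z D = 0 → D = 0)
    {S : Set (V →L[ℂ] V)}
    (hS : ∀ φ ∈ S, (∃ ρ : V →L[ℂ] V, ρ * φ = 1 ∧ φ * ρ = 1) ∧
      ∀ x y, φ (μ x y) = μ (φ x) (φ y)) : LocEmb V S := by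
  intro φ₀ hφ₀
  obtain ⟨⟨ρ, h1, h2⟩, h3⟩ := hS φ₀ hφ₀
  have h1' : ∀ x, ρ (φ₀ x) = x := fun x => by
    have := congrArg (fun f : V →L[ℂ] V => f x) h1
    simpa using this
  have h2' : ∀ x, φ₀ (ρ x) = x := fun x => by
    have := congrArg (fun f : V →L[ℂ] V => f x) h2
    simpa using this
  have hρ : ∀ a b, ρ (μ a b) = μ (ρ a) (ρ b) := by
    intro a b
    rw [← h1' (μ (ρ a) (ρ b)), h3, h2', h2']
  haveI : FiniteDimensional ℂ (V →L[ℂ] V) := inferInstance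
  obtain ⟨K, hK0, hbd⟩ := exists_bound (E := V →L[ℂ] V) (F := V →L[ℂ] V →L[ℂ] V) (G := V)
    (dfct μ) z (fun D e1 e2 => by
    apply hz D _ e2
    intro x y
    have e3 := dfct_apply μ D x y
    rw [e1] at e3
    have e4 : D (μ x y) - μ (D x) y - μ x (D y) = 0 := by simpa using e3.symm
    rw [sub_sub, sub_eq_zero] at e4
    exact e4)
  have hK0' : (0 : ℝ) < K := by exact_mod_cast hK0
  set ε : ℝ := (4 * K * (‖μ‖ + 1))⁻¹ with hε
  have hε0 : 0 < ε := by positivity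
  have hcont : Continuous fun φ : V →L[ℂ] V => ‖ρ * φ - 1‖ := by fun_prop
  set W : Set (V →L[ℂ] V) := {φ | ‖ρ * φ - 1‖ < ε} with hW
  have hWm : W ∈ 𝓝 φ₀ := by
    apply (isOpen_lt hcont continuous_const).mem_nhds
    change ‖ρ * φ₀ - 1‖ < ε
    rw [h1, sub_self, norm_zero]
    exact hε0
  refine ⟨fun φ => z (ρ * φ), ⟨2 * K * ‖φ₀‖, by positivity⟩, W, hWm, ?_⟩
  intro φ hφ hφW ψ hψ hψW
  have hφ' := (hS φ hφ).2
  have hψ' := (hS ψ hψ).2
  set D : V →L[ℂ] V := ρ * (φ - ψ) with hD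
  have hDx : ∀ x, D x = ρ (φ x) - ρ (ψ x) := fun x => by simp [hD]
  have e0 : ∀ x y, dfct μ D x y
      = μ (D x) ((ρ * φ - 1 : V →L[ℂ] V) y) + μ ((ρ * ψ - 1 : V →L[ℂ] V) x) (D y) := by
    intro x y
    rw [dfct_apply, hDx (μ x y), hφ', hψ', hρ, hρ, hDx, hDx]
    simp only [ContinuousLinearMap.sub_apply, ContinuousLinearMap.mul_apply,
      ContinuousLinearMap.one_apply, map_sub]
    abel
  have e1 : ‖dfct μ D‖ ≤ 2 * ε * ‖μ‖ * ‖D‖ := by
    apply ContinuousLinearMap.opNorm_le_bound₂ _ (by positivity)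
    intro x y
    rw [e0]
    have a1 : ‖μ (D x) ((ρ * φ - 1 : V →L[ℂ] V) y)‖ ≤ ‖μ‖ * (‖D‖ * ‖x‖) * (ε * ‖y‖) := by
      refine (μ.le_opNorm₂ _ _).trans ?_
      gcongr
      · exact D.le_opNorm x
      · refine ((ρ * φ - 1 : V →L[ℂ] V).le_opNorm y).trans ?_
        gcongr
        exact (show ‖ρ * φ - 1‖ < ε from hφW).le
    have a2 : ‖μ ((ρ * ψ - 1 : V →L[ℂ] V) x) (D y)‖ ≤ ‖μ‖ * (ε * ‖x‖) * (‖D‖ * ‖y‖) := by
      refine (μ.le_opNorm₂ _ _).trans ?_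
      gcongr
      · refine ((ρ * ψ - 1 : V →L[ℂ] V).le_opNorm x).trans ?_
        gcongr
        exact (show ‖ρ * ψ - 1‖ < ε from hψW).le
      · exact D.le_opNorm y
    refine (norm_add_le _ _).trans ((add_le_add a1 a2).trans (le_of_eq ?_))
    ring
  have e2 := hbd D
  have e3 : (K : ℝ) * (2 * ε * ‖μ‖ * ‖D‖) ≤ 1 / 2 * ‖D‖ := by
    have e4 : (K : ℝ) * (2 * ε * ‖μ‖) ≤ 1 / 2 := by
      rw [hε]
      have h5 : (0 : ℝ) < ‖μ‖ + 1 := by positivity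
      have h6 : (K : ℝ) * (2 * (4 * K * (‖μ‖ + 1))⁻¹ * ‖μ‖) = 1 / 2 * (‖μ‖ / (‖μ‖ + 1)) := by
        field_simp
        ring
      rw [h6]
      have h7 : ‖μ‖ / (‖μ‖ + 1) ≤ 1 := by
        rw [div_le_one h5]
        linarith
      linarith
    calc (K : ℝ) * (2 * ε * ‖μ‖ * ‖D‖) = (K : ℝ) * (2 * ε * ‖μ‖) * ‖D‖ := by ring
      _ ≤ 1 / 2 * ‖D‖ := mul_le_mul_of_nonneg_right e4 (norm_nonneg _)
  have e5 : ‖D‖ ≤ 2 * K * ‖z D‖ := by
    have e6 : (K : ℝ) * ‖dfct μ D‖ ≤ (K : ℝ) * (2 * ε * ‖μ‖ * ‖D‖) :=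
      mul_le_mul_of_nonneg_left e1 K.coe_nonneg
    have e7 : ‖D‖ ≤ (K : ℝ) * ‖dfct μ D‖ + K * ‖z D‖ := by
      rw [← mul_add]
      exact e2
    linarith
  have e8 : φ - ψ = φ₀ * D := by
    rw [hD, ← mul_assoc, h2, one_mul]
  have e9 : z D = z (ρ * φ) - z (ρ * ψ) := by rw [hD, mul_sub, map_sub]
  rw [dist_eq_norm, dist_eq_norm, ← e9, e8]
  calc ‖φ₀ * D‖ ≤ ‖φ₀‖ * ‖D‖ := norm_mul_le _ _
    _ ≤ ‖φ₀‖ * (2 * K * ‖z D‖) := mul_le_mul_of_nonneg_left e5 (norm_nonneg _)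
    _ = (2 * K * ‖φ₀‖) * ‖z D‖ := by ring

end Pool.Agent.Work.MP_3d4872_al.Pb
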