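import Pool.Agent.Work.MP_3d4872_al.Pb.Main

/-!
# MP_3d4872_al: the lower bound for the number of parameters
-/

set_option autoImplicit false

namespace Pool.Agent.Work.MP_3d4872_al.Pb

open LieAlgebra Module Set Topology
open scoped NNReal ENNReal

/-- There are countably many families of bilinear maps, depending on at most `D` real parameters
in a `C¹` way, such that every Lie bracket compatible with `L` is equivalent to a member. -/
def HasList (L : Type*) [LieRing L] [LieAlgebra ℂ L] (D : ℕ) : Prop :=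
  ∃ (d : ℕ → ℕ) (U : ∀ i, Set (Fin (d i) → ℝ))
    (f : ∀ i, (Fin (d i) → ℝ) → L →ₗ[ℂ] L →ₗ[ℂ] L),
    (∀ i, d i ≤ D ∧ IsOpen (U i) ∧
      ∀ (X Y : L) (ℓ : L →ₗ[ℂ] ℂ), ContDiffOn ℝ 1 (fun p => ℓ (f i p X Y)) (U i)) ∧
    ∀ β : L →ₗ[ℂ] L →ₗ[ℂ] L, Compatible β → ∃ i, ∃ p ∈ U i, Equivalent (f i p) β

variable {L : Type*} [LieRing L] [LieAlgebra ℂ L] [FiniteDimensional ℂ L]

theorem param_bound [LieAlgebra.IsKilling ℂ L] {s t : ℕ} {x : Fin s → L} {y : Fin t → L}
    (h : Good x y) (hx : LinearIndependent ℂ x) (hy : LinearIndependent ℂ y) {D : ℕ}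
    (hD : HasList L D) : 2 * (s * t) ≤ D + 2 * finrank ℂ L := by
  obtain ⟨d, U, f, hf, hcov⟩ := hD
  set n := finrank ℂ L with hn
  set b : Basis (Fin n) ℂ L := finBasis ℂ L with hb
  set e : L ≃ₗ[ℂ] (Fin n → ℂ) := b.equivFun with he
  have heb : ∀ j, e (b j) = Pi.single j 1 := fun j => by
    ext i
    rw [he, Basis.equivFun_self, Pi.single_apply]
    simp [eq_comm]
  -- the bracket in coordinates
  set Λ : (Fin s → Fin t → ℂ) →ₗ[ℂ] (Fin n → Fin n → (Fin n → ℂ)) :=
    { toFun := fun r j k => e (opBracket (combo x y r) (b j) (b k))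
      map_add' := by
        intro r r'
        ext j k i
        simp only [opBracket_apply, map_add, LinearMap.add_apply, add_lie, lie_add, map_sub,
          Pi.add_apply, Pi.sub_apply]
        ring
      map_smul' := by
        intro c r
        ext j k i
        simp only [opBracket_apply, map_add, map_smul, LinearMap.smul_apply, smul_lie, lie_smul,
          map_sub, Pi.add_apply, Pi.sub_apply, Pi.smul_apply, smul_eq_mul, RingHom.id_apply]
        ring } with hΛ
  have hΛinj : LinearMap.ker Λ = ⊥ := by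
    rw [LinearMap.ker_eq_bot']
    intro r hr
    have h1 : ∀ j k, opBracket (combo x y r) (b j) (b k) = 0 := by
      intro j k
      apply e.injective
      rw [map_zero]
      exact congrFun (congrFun hr j) k
    have h2 : opBracket (combo x y r) = 0 := by
      apply b.ext
      intro j
      apply b.ext
      intro k
      rw [h1]
      simp
    exact combo_inj h hx hy (fun X Y => by rw [h2]; simp)
  obtain ⟨q, hq⟩ := LinearMap.exists_leftInverse_of_injective Λ hΛinj
  have hq' : ∀ r, q (Λ r) = r := fun r => by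
    have := congrArg (fun g : (Fin s → Fin t → ℂ) →ₗ[ℂ] (Fin s → Fin t → ℂ) => g r) hq
    simpa using this
  -- the families in coordinates
  set F : ∀ i, (Fin (d i) → ℝ) → Fin n → Fin n → (Fin n → ℂ) :=
    fun i p l m => e (f i p (b l) (b m)) with hF
  have hqc : ContDiff ℝ 1 q := by
    have h1 : ContDiff ℂ 1 (LinearMap.toContinuousLinearMap q) :=
      (LinearMap.toContinuousLinearMap q).contDiff
    exact h1.restrict_scalars ℝ
  have hunit : ∀ φ ∈ autSet e, IsUnit φ := by
    rintro φ ⟨ψ, hψ⟩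
    obtain ⟨ρ, h1, h2, -⟩ := autSet_inv e hψ
    exact ⟨⟨φ, ρ, h2, h1⟩, rfl⟩
  have hmain := cover_bound (T := Fin s → Fin t → ℂ) (G := Fin n → ℂ)
    (E := (Fin n → ℂ) →L[ℂ] (Fin n → ℂ)) (fun i w => q (pull n (F i w.1) w.2)) U
    (locEmb_autSet e) ?_ ?_
  · obtain ⟨i, hi⟩ := hmain
    have h1 : finrank ℝ (Fin s → Fin t → ℂ) = 2 * (s * t) := by
      rw [Module.finrank_pi_fintype]
      simp [Module.finrank_pi_fintype]
      ring
    have h2 : finrank ℝ (Fin n → ℂ) = 2 * n := by
      rw [Module.finrank_pi_fintype]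
      simp
      ring
    rw [h1, h2] at hi
    exact hi.trans (Nat.add_le_add_right (hf i).1 _)
  · intro i p hp φ hφ
    apply hqc.contDiffAt.comp
    apply contDiffAt_pull _ (hunit φ hφ)
    intro l m k
    exact ((hf i).2.2 (b l) (b m) ((LinearMap.proj k) ∘ₗ (e : L →ₗ[ℂ] (Fin n → ℂ)))).contDiffAt
      ((hf i).2.1.mem_nhds hp)
  · intro r
    obtain ⟨i, p, hp, φ, hφ⟩ := hcov _ (combo_compatible h r)
    set φ' : (Fin n → ℂ) →L[ℂ] (Fin n → ℂ) := LinearMap.toContinuousLinearMap
      ((e : L →ₗ[ℂ] (Fin n → ℂ)) ∘ₗ (φ : L →ₗ[ℂ] L) ∘ₗ (e.symm : (Fin n → ℂ) →ₗ[ℂ] L)) with hφ'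
    have h1 : ∀ X, φ' (e X) = e (φ X) := fun X => by simp [hφ']
    refine ⟨i, p, hp, φ', ⟨φ, h1⟩, ?_⟩
    obtain ⟨ρ, h2, h3, h4⟩ := autSet_inv e h1
    have hinv : Ring.inverse φ' = ρ := by
      have h5 := Ring.inverse_unit (⟨φ', ρ, h3, h2⟩ : ((Fin n → ℂ) →L[ℂ] (Fin n → ℂ))ˣ)
      exact h5
    change q (pull n (F i p) φ') = r
    rw [← hq' r]
    congr 1
    ext1 j
    ext1 k
    change _ = e (opBracket (combo x y r) (b j) (b k))
    rw [hφ, ← h4]
    unfold pull
    rw [hinv, ← heb j, ← heb k, h1, h1]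
    have h6 : ∀ X : L, X = ∑ l, e X l • b l := fun X => by
      rw [he]
      exact (b.sum_equivFun X).symm
    have h7 : e (f i p (φ (b j)) (φ (b k)))
        = ∑ l, ∑ m, (e (φ (b j)) l * e (φ (b k)) m) • F i p l m := by
      conv_lhs => rw [h6 (φ (b j)), h6 (φ (b k))]
      simp only [map_sum, LinearMap.sum_apply, map_smul, LinearMap.smul_apply, hF, mul_smul,
        Finset.smul_sum]
      rw [Finset.sum_comm]
      refine Finset.sum_congr rfl fun l _ => Finset.sum_congr rfl fun m _ => ?_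
      rw [smul_comm]
    have h8 : ∀ v : Fin n → ℂ, ρ v = ∑ i, v i • ρ (Pi.single i 1) := by
      intro v
      conv_lhs => rw [pi_eq_sum_univ' v]
      simp only [map_sum, map_smul]
    rw [h8, h7]
    apply Finset.sum_congr rfl
    intro i' _
    congr 1
    simp only [Finset.sum_apply, Pi.smul_apply, smul_eq_mul]

end Pool.Agent.Work.MP_3d4872_al.Pb
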