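import Pool.Agent.Work.MP_3d4872_al.Pb.Abel
import Pool.Agent.Work.MP_3d4872_al.SlKilling
import Pool.Agent.Work.MP_3d4872_al.Skew

/-!
# MP_3d4872_al: abelian subspaces and dimensions of the classical Lie algebras
-/

set_option autoImplicit false
set_option linter.unusedSectionVars false

namespace Pool.Agent.Work.MP_3d4872_al.Pb

open Matrix LieAlgebra Module LieAlgebra.SpecialLinear LieAlgebra.Orthogonal LieAlgebra.Symplectic

attribute [local instance 100] LieRing.ofAssociativeRing

theorem ad_nilpotent_of_sq {n : Type*} [Fintype n] [DecidableEq n]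
    (H : LieSubalgebra ℂ (Matrix n n ℂ)) (X : H) (h : X.val * X.val = 0) :
    IsNilpotent (LieAlgebra.ad ℂ H X) := by
  refine ⟨3, ?_⟩
  apply LinearMap.ext
  intro Z
  apply Subtype.ext
  change ⁅X.val, ⁅X.val, ⁅X.val, Z.val⁆⁆⁆ = 0
  simp only [Ring.lie_def]
  set A := X.val
  set B := Z.val
  have h1 : A * (A * B - B * A) - (A * B - B * A) * A = -(2 : ℂ) • (A * B * A) := by
    have h2 : A * (A * B - B * A) - (A * B - B * A) * A
        = (A * A) * B - (2 : ℂ) • (A * B * A) + B * (A * A) := by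
      rw [two_smul]
      noncomm_ring
    rw [h2, h]
    simp
  rw [h1, Matrix.mul_smul, Matrix.smul_mul, ← mul_assoc, ← mul_assoc, h, mul_assoc (A * B) A A, h]
  simp

section SL

/-- The block above the diagonal. -/
noncomputable def slBlock (p q : ℕ) : Matrix (Fin p) (Fin q) ℂ →ₗ[ℂ] sl (Fin p ⊕ Fin q) ℂ where
  toFun B := ⟨fromBlocks 0 B 0 0, by
    change Matrix.trace (fromBlocks 0 B 0 0) = 0
    simp [Matrix.trace, Fintype.sum_sum_type]⟩
  map_add' B B' := by
    apply Subtype.ext
    change fromBlocks 0 (B + B') 0 0 = fromBlocks 0 B 0 0 + fromBlocks 0 B' 0 0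
    rw [fromBlocks_add]
    simp
  map_smul' c B := by
    apply Subtype.ext
    change fromBlocks 0 (c • B) 0 0 = c • fromBlocks 0 B 0 0
    rw [fromBlocks_smul]
    simp

theorem slBlock_mul (p q : ℕ) (B B' : Matrix (Fin p) (Fin q) ℂ) :
    (slBlock p q B).val * (slBlock p q B').val = 0 := by
  change fromBlocks 0 B 0 0 * fromBlocks 0 B' 0 0 = 0
  rw [fromBlocks_multiply]
  simp

theorem abNil_sl_block (p q : ℕ) : AbNil (sl (Fin p ⊕ Fin q) ℂ) (p * q) := by
  have h := AbNil.of_injective (slBlock p q) (fun B B' h => by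
      have h1 := congrArg Subtype.val h
      change fromBlocks 0 B 0 0 = fromBlocks 0 B' 0 0 at h1
      exact (fromBlocks_inj.1 h1).2.1)
    (fun B B' => by
      apply Subtype.ext
      change (slBlock p q B).val * (slBlock p q B').val
        - (slBlock p q B').val * (slBlock p q B).val = 0
      rw [slBlock_mul, slBlock_mul, sub_zero])
    (fun B => ad_nilpotent_of_sq _ _ (slBlock_mul p q B B))
  rw [Module.finrank_matrix] at h
  simpa using h

theorem abNil_sl (N : ℕ) : AbNil (sl (Fin N) ℂ) (N ^ 2 / 4) := by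
  have h1 := (abNil_sl_block (N / 2) (N - N / 2)).transport
    (reindexSl (finSumFinEquiv.trans (finCongr (show N / 2 + (N - N / 2) = N by omega))))
  have h2 : N / 2 * (N - N / 2) = N ^ 2 / 4 := by
    rcases Nat.even_or_odd' N with ⟨k, rfl | rfl⟩
    · have e1 : 2 * k / 2 = k := by omega
      have e2 : 2 * k - k = k := by omega
      rw [e1, e2, show (2 * k) ^ 2 = k * k * 4 by ring, Nat.mul_div_cancel _ (by norm_num)]
    · have e1 : (2 * k + 1) / 2 = k := by omega
      have e2 : 2 * k + 1 - k = k + 1 := by omega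
      rw [e1, e2, show (2 * k + 1) ^ 2 = 1 + 4 * (k * (k + 1)) by ring,
        Nat.add_mul_div_left _ _ (by norm_num)]
      omega
  rwa [h2] at h1

theorem finrank_sl_add_one (N : ℕ) (hN : 1 ≤ N) : finrank ℂ (sl (Fin N) ℂ) + 1 = N ^ 2 := by
  set f := Matrix.traceLinearMap (Fin N) ℂ ℂ with hf
  have h1 := LinearMap.finrank_range_add_finrank_ker f
  have h2 : LinearMap.range f = ⊤ := by
    rw [LinearMap.range_eq_top]
    intro c
    refine ⟨Matrix.single ⟨0, hN⟩ ⟨0, hN⟩ c, ?_⟩
    simp [hf]
  rw [h2, finrank_top, Module.finrank_self, Module.finrank_matrix] at h1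
  simp only [Fintype.card_fin, Module.finrank_self, mul_one] at h1
  have h3 : finrank ℂ (sl (Fin N) ℂ) = finrank ℂ (LinearMap.ker f) := rfl
  rw [h3, sq]
  omega

end SL

section Pairs

/-- Symmetric and skew-symmetric matrices. -/
def symSub (n : Type*) (ε : ℂ) : Submodule ℂ (Matrix n n ℂ) where
  carrier := {A | Aᵀ = ε • A}
  zero_mem' := by simp
  add_mem' := by
    intro A B hA hB
    change (A + B)ᵀ = ε • (A + B)
    rw [Matrix.transpose_add, hA, hB, smul_add]
  smul_mem' := by
    intro c A hA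
    change (c • A)ᵀ = ε • (c • A)
    rw [Matrix.transpose_smul, hA, smul_comm]

theorem mem_symSub {n : Type*} {ε : ℂ} {A : Matrix n n ℂ} : A ∈ symSub n ε ↔ Aᵀ = ε • A :=
  Iff.rfl

theorem symSub_entry {n : Type*} {ε : ℂ} {A : Matrix n n ℂ} (h : A ∈ symSub n ε) (i j : n) :
    A j i = ε * A i j := by
  have := congrFun (congrFun h i) j
  simpa using this

variable (m : ℕ)

/-- Skew-symmetric matrices and their entries above the diagonal. -/
noncomputable def skewEquiv : symSub (Fin m) (-1) ≃ₗ[ℂ] ((Σ j : Fin m, Fin j.1) → ℂ) where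
  toFun A := fun p => A.1 ⟨p.2.1, p.2.2.trans p.1.2⟩ p.1
  map_add' _ _ := rfl
  map_smul' _ _ := rfl
  invFun f := ⟨Matrix.of fun i j => if h : i.1 < j.1 then f ⟨j, ⟨i.1, h⟩⟩ else
    if h' : j.1 < i.1 then -f ⟨i, ⟨j.1, h'⟩⟩ else 0, by
      rw [mem_symSub]
      ext i j
      rw [Matrix.transpose_apply, Matrix.smul_apply, Matrix.of_apply, Matrix.of_apply]
      rcases lt_trichotomy i.1 j.1 with h | h | h
      · simp [h, h.not_gt]
      · simp [h]
      · simp [h, h.not_gt]⟩
  left_inv A := by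
    apply Subtype.ext
    ext i j
    have hs := symSub_entry A.2
    change (if h : i.1 < j.1 then A.1 ⟨i.1, _⟩ j else
      if h' : j.1 < i.1 then -A.1 ⟨j.1, _⟩ i else 0) = A.1 i j
    rcases lt_trichotomy i.1 j.1 with h | h | h
    · simp [h]
    · have hij : i = j := Fin.ext h
      subst hij
      have h1 := hs i i
      have h2 : A.1 i i = 0 := by linear_combination (1 / 2) * h1
      simp [h2]
    · have h1 := hs i j
      simp [h, h.not_gt, h1]
  right_inv f := by
    funext p
    obtain ⟨j, i⟩ := p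
    change (if h : i.1 < j.1 then f ⟨j, ⟨i.1, h⟩⟩ else _) = f ⟨j, i⟩
    rw [dif_pos i.2]

/-- Symmetric matrices and their entries on and above the diagonal. -/
noncomputable def symEquiv : symSub (Fin m) 1 ≃ₗ[ℂ] ((Σ j : Fin m, Fin (j.1 + 1)) → ℂ) where
  toFun A := fun p => A.1 ⟨p.2.1, by omega⟩ p.1
  map_add' _ _ := rfl
  map_smul' _ _ := rfl
  invFun f := ⟨Matrix.of fun i j => if h : i.1 < j.1 + 1 then f ⟨j, ⟨i.1, h⟩⟩ else
    f ⟨i, ⟨j.1, by omega⟩⟩, by
      rw [mem_symSub]
      ext i j
      rw [Matrix.transpose_apply, Matrix.smul_apply, Matrix.of_apply, Matrix.of_apply, one_smul]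
      rcases lt_trichotomy i.1 j.1 with h | h | h
      · rw [dif_neg (by omega), dif_pos (by omega)]
      · have hij : i = j := Fin.ext h
        subst hij
        rfl
      · rw [dif_pos (by omega), dif_neg (by omega)]⟩
  left_inv A := by
    apply Subtype.ext
    ext i j
    have hs := symSub_entry A.2
    change (if h : i.1 < j.1 + 1 then A.1 ⟨i.1, _⟩ j else A.1 ⟨j.1, _⟩ i) = A.1 i j
    by_cases h : i.1 < j.1 + 1
    · rw [dif_pos h]
    · rw [dif_neg h]
      have h1 := hs i j
      rw [one_mul] at h1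
      exact h1
  right_inv f := by
    funext p
    obtain ⟨j, i⟩ := p
    change (if h : i.1 < j.1 + 1 then f ⟨j, ⟨i.1, h⟩⟩ else _) = f ⟨j, i⟩
    rw [dif_pos i.2]

theorem finrank_skew : 2 * finrank ℂ (symSub (Fin m) (-1)) = m * (m - 1) := by
  rw [(skewEquiv m).finrank_eq, Module.finrank_fintype_fun_eq_card, Fintype.card_sigma]
  simp only [Fintype.card_fin]
  rw [Fin.sum_univ_eq_sum_range (fun i => i) m, mul_comm, Finset.sum_range_id_mul_two]

theorem finrank_sym : 2 * finrank ℂ (symSub (Fin m) 1) = m * (m + 1) := by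
  rw [(symEquiv m).finrank_eq, Module.finrank_fintype_fun_eq_card, Fintype.card_sigma]
  simp only [Fintype.card_fin]
  rw [Fin.sum_univ_eq_sum_range (fun i => i + 1) m]
  have h := Finset.sum_range_id_mul_two (m + 1)
  rw [Finset.sum_range_succ', add_zero, Nat.add_sub_cancel] at h
  rw [mul_comm, h, mul_comm]

end Pairs

end Pool.Agent.Work.MP_3d4872_al.Pb
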