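import Mathlib

/-!
# MP_3d4872_al: covering by the images of families

If a finite-dimensional space `T` is covered by countably many images of `U i × S` under maps of
class `C¹`, where `S` is locally embedded into `G` by maps with Lipschitz inverse, then
`dim T ≤ d i + dim G` for some `i` (`d i` is the dimension of `U i`).
-/

set_option autoImplicit false

namespace Pool.Agent.Work.MP_3d4872_al.Pb

open Set Topology Module
open scoped NNReal ENNReal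

/-- `S` is locally embedded into `G` by maps with Lipschitz inverse. -/
def LocEmb {E : Type*} [PseudoMetricSpace E] (G : Type*) [PseudoMetricSpace G] (S : Set E) :
    Prop :=
  ∀ φ₀ ∈ S, ∃ P : E → G, ∃ K : ℝ≥0, ∃ W ∈ 𝓝 φ₀, ∀ φ ∈ S, φ ∈ W → ∀ ψ ∈ S, ψ ∈ W →
    dist φ ψ ≤ K * dist (P φ) (P ψ)

section

variable {H E G : Type*} [NormedAddCommGroup H] [NormedSpace ℝ H] [FiniteDimensional ℝ H]
  [NormedAddCommGroup E] [NormedSpace ℝ E] [FiniteDimensional ℝ E]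
  [NormedAddCommGroup G] [NormedSpace ℝ G] [FiniteDimensional ℝ G]

theorem dimH_prod_le (U : Set H) {S : Set E} (hS : LocEmb G S) :
    dimH (U ×ˢ S) ≤ ((finrank ℝ H + finrank ℝ G : ℕ) : ℝ≥0∞) := by
  by_contra hcon
  push Not at hcon
  obtain ⟨x, hx, hlt⟩ := exists_mem_nhdsWithin_lt_dimH_of_lt_dimH hcon
  obtain ⟨P, K, W, hW, hP⟩ := hS x.2 hx.2
  set t : Set (H × E) := (U ×ˢ S) ∩ (Prod.snd ⁻¹' W) with htdef
  have ht : t ∈ 𝓝[U ×ˢ S] x :=
    inter_mem_nhdsWithin _ (continuous_snd.continuousAt hW)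
  have h1 := hlt t ht
  set Q : H × E → H × G := fun z => (z.1, P z.2) with hQ
  set K' : ℝ≥0 := max 1 K with hK'
  have hanti : ∀ z ∈ t, ∀ w ∈ t, dist z w ≤ K' * dist (Q z) (Q w) := by
    intro z hz w hw
    rw [Prod.dist_eq, Prod.dist_eq]
    have h2 := hP z.2 hz.1.2 hz.2 w.2 hw.1.2 hw.2
    have hK1 : (1 : ℝ) ≤ K' := by
      rw [hK']
      exact_mod_cast le_max_left 1 K
    have hK2 : (K : ℝ) ≤ K' := by
      rw [hK']
      exact_mod_cast le_max_right 1 K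
    apply max_le
    · calc dist z.1 w.1 = 1 * dist z.1 w.1 := (one_mul _).symm
        _ ≤ K' * max (dist z.1 w.1) (dist (P z.2) (P w.2)) :=
          mul_le_mul hK1 (le_max_left _ _) dist_nonneg (zero_le_one.trans hK1)
    · calc dist z.2 w.2 ≤ K * dist (P z.2) (P w.2) := h2
        _ ≤ K' * max (dist z.1 w.1) (dist (P z.2) (P w.2)) :=
          mul_le_mul hK2 (le_max_right _ _) dist_nonneg (zero_le_one.trans hK1)
  set g : H × G → H × E := Function.invFunOn Q t with hg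
  have hgm : ∀ a ∈ Q '' t, g a ∈ t ∧ Q (g a) = a := by
    intro a ha
    have h2 : ∃ z ∈ t, Q z = a := ha
    exact ⟨Function.invFunOn_mem h2, Function.invFunOn_eq h2⟩
  have hlip : LipschitzOnWith K' g (Q '' t) := by
    apply LipschitzOnWith.of_dist_le_mul
    intro a ha b hb
    have h2 := hanti _ (hgm a ha).1 _ (hgm b hb).1
    rwa [(hgm a ha).2, (hgm b hb).2] at h2
  have hsub : t ⊆ g '' (Q '' t) := by
    intro z hz
    refine ⟨Q z, ⟨z, hz, rfl⟩, ?_⟩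
    have h2 := hgm (Q z) ⟨z, hz, rfl⟩
    have h3 := hanti _ h2.1 z hz
    rw [h2.2, dist_self, mul_zero] at h3
    exact dist_le_zero.1 h3
  have h2 : dimH t ≤ ((finrank ℝ H + finrank ℝ G : ℕ) : ℝ≥0∞) := by
    calc dimH t ≤ dimH (g '' (Q '' t)) := dimH_mono hsub
      _ ≤ dimH (Q '' t) := hlip.dimH_image_le
      _ ≤ dimH (univ : Set (H × G)) := dimH_mono (subset_univ _)
      _ = ((finrank ℝ (H × G) : ℕ) : ℝ≥0∞) := Real.dimH_univ_eq_finrank _
      _ = ((finrank ℝ H + finrank ℝ G : ℕ) : ℝ≥0∞) := by rw [finrank_prod]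
  exact absurd h1 (not_lt.2 h2)

end

theorem cover_bound {ι : Type*} [Countable ι] {d : ι → ℕ} {T E G : Type*}
    [NormedAddCommGroup T] [NormedSpace ℝ T] [FiniteDimensional ℝ T]
    [NormedAddCommGroup E] [NormedSpace ℝ E] [FiniteDimensional ℝ E]
    [NormedAddCommGroup G] [NormedSpace ℝ G] [FiniteDimensional ℝ G]
    (f : ∀ i, (Fin (d i) → ℝ) × E → T) (U : ∀ i, Set (Fin (d i) → ℝ)) {S : Set E}
    (hS : LocEmb G S) (hf : ∀ i, ∀ p ∈ U i, ∀ φ ∈ S, ContDiffAt ℝ 1 (f i) (p, φ))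
    (hcov : ∀ r : T, ∃ i, ∃ p ∈ U i, ∃ φ ∈ S, f i (p, φ) = r) :
    ∃ i, finrank ℝ T ≤ d i + finrank ℝ G := by
  by_contra hcon
  push Not at hcon
  obtain ⟨i₀, -⟩ := hcov 0
  have hpos : 0 < finrank ℝ T := (Nat.zero_le _).trans_lt (hcon i₀)
  have h1 : ∀ i, dimH (f i '' (U i ×ˢ S)) ≤ ((finrank ℝ T - 1 : ℕ) : ℝ≥0∞) := by
    intro i
    calc dimH (f i '' (U i ×ˢ S)) ≤ dimH (U i ×ˢ S) := by
          apply dimH_image_le_of_locally_lipschitzOn
          rintro ⟨p, φ⟩ ⟨hp, hφ⟩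
          obtain ⟨K, t, ht, hK⟩ := (hf i p hp φ hφ).exists_lipschitzOnWith
          exact ⟨K, t, mem_nhdsWithin_of_mem_nhds ht, hK⟩
      _ ≤ ((finrank ℝ (Fin (d i) → ℝ) + finrank ℝ G : ℕ) : ℝ≥0∞) := dimH_prod_le _ hS
      _ ≤ ((finrank ℝ T - 1 : ℕ) : ℝ≥0∞) := by
          have h2 := hcon i
          rw [finrank_fin_fun]
          exact_mod_cast (by omega : d i + finrank ℝ G ≤ finrank ℝ T - 1)
  have h2 : (univ : Set T) ⊆ ⋃ i, f i '' (U i ×ˢ S) := by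
    intro r _
    obtain ⟨i, p, hp, φ, hφ, e⟩ := hcov r
    exact mem_iUnion.2 ⟨i, (p, φ), ⟨hp, hφ⟩, e⟩
  have h3 : ((finrank ℝ T : ℕ) : ℝ≥0∞) ≤ ((finrank ℝ T - 1 : ℕ) : ℝ≥0∞) := by
    calc ((finrank ℝ T : ℕ) : ℝ≥0∞) = dimH (univ : Set T) :=
          (Real.dimH_univ_eq_finrank _).symm
      _ ≤ dimH (⋃ i, f i '' (U i ×ˢ S)) := dimH_mono h2
      _ = ⨆ i, dimH (f i '' (U i ×ˢ S)) := dimH_iUnion _
      _ ≤ _ := iSup_le h1
  have h4 : finrank ℝ T ≤ finrank ℝ T - 1 := by exact_mod_cast h3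
  omega

end Pool.Agent.Work.MP_3d4872_al.Pb
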