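import Pool.Agent.Work.MP_3d4872_al.Pb.Orth

/-!
# MP_3d4872_al: the number of parameters for the classical Lie algebras
-/

set_option autoImplicit false

namespace Pool.Agent.Work.MP_3d4872_al.Pb

open Matrix LieAlgebra Module LieAlgebra.SpecialLinear LieAlgebra.Orthogonal LieAlgebra.Symplectic

attribute [local instance 100] LieRing.ofAssociativeRing

/-- `L` is isomorphic to `sl N` (`N ≥ 2`), `so N` (`N ≥ 7`) or `sp (2 n)`. -/
def IsClassical (L : Type*) [LieRing L] [LieAlgebra ℂ L] : Prop :=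
  (∃ N : ℕ, 2 ≤ N ∧ Nonempty (L ≃ₗ⁅ℂ⁆ sl (Fin N) ℂ)) ∨
  (∃ N : ℕ, 7 ≤ N ∧ Nonempty (L ≃ₗ⁅ℂ⁆ so (Fin N) ℂ)) ∨
  ∃ n : ℕ, Nonempty (L ≃ₗ⁅ℂ⁆ sp (Fin n) ℂ)

variable {L : Type*} [LieRing L] [LieAlgebra ℂ L] [FiniteDimensional ℂ L]

theorem big_of_classical {I : LieIdeal ℂ L} (h : IsClassical I) : Big 7 I := by
  rcases h with ⟨N, hN, ⟨e⟩⟩ | ⟨N, hN, ⟨e⟩⟩ | ⟨n, ⟨e⟩⟩
  · refine Big.of_abNil ((abNil_sl N).transport e.symm) ?_
    have h1 : finrank ℂ I = finrank ℂ (sl (Fin N) ℂ) := (e : I ≃ₗ[ℂ] sl (Fin N) ℂ).finrank_eq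
    have h2 := finrank_sl_add_one N (by omega)
    have h3 : 4 ≤ N ^ 2 := by nlinarith
    rw [h1]
    omega
  · refine Big.of_abNil ((abNil_so N).transport e.symm) ?_
    have h1 : finrank ℂ I = finrank ℂ (so (Fin N) ℂ) := (e : I ≃ₗ[ℂ] so (Fin N) ℂ).finrank_eq
    have h2 := finrank_so N
    have h3 := finrank_skew (N / 2)
    have h4 : N * (N - 1) ≤ 7 * (N / 2 * (N / 2 - 1)) := by
      rcases Nat.even_or_odd' N with ⟨k, rfl | rfl⟩
      · obtain ⟨k, rfl⟩ : ∃ q, k = q + 1 := ⟨k - 1, by omega⟩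
        have e1 : 2 * (k + 1) / 2 = k + 1 := by omega
        have e2 : 2 * (k + 1) - 1 = 2 * k + 1 := by omega
        rw [e1, e2, Nat.add_sub_cancel]
        nlinarith
      · obtain ⟨k, rfl⟩ : ∃ q, k = q + 1 := ⟨k - 1, by omega⟩
        have e1 : (2 * (k + 1) + 1) / 2 = k + 1 := by omega
        have e2 : 2 * (k + 1) + 1 - 1 = 2 * k + 2 := by omega
        rw [e1, e2, Nat.add_sub_cancel]
        nlinarith
    rw [h1]
    omega
  · refine Big.of_abNil ((abNil_sp n).transport e.symm) ?_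
    have h1 : finrank ℂ I = finrank ℂ (sp (Fin n) ℂ) := (e : I ≃ₗ[ℂ] sp (Fin n) ℂ).finrank_eq
    have h2 := finrank_sp_le n
    have h3 := finrank_sym n
    rw [h1]
    have h4 : 2 * (n * (2 * n + 1)) ≤ 7 * (n * (n + 1)) := by nlinarith
    omega

/-- The general lower bound, quadratic in the dimension. -/
theorem classical_bound [LieAlgebra.IsSemisimple ℂ L]
    (h : ∀ I : LieIdeal ℂ L, IsAtom I → IsClassical I) {D : ℕ} (hD : HasList L D) :
    2 * finrank ℂ L ^ 2 ≤ 49 * (D + 2 * finrank ℂ L) :=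
  (big_top fun I hI => big_of_classical (h I hI)).bound hD

theorem sl_bound {N D : ℕ} (hN : 2 ≤ N) (hD : HasList (sl (Fin N) ℂ) D) :
    2 * (N ^ 2 / 4) ^ 2 ≤ D + 2 * (N ^ 2 - 1) := by
  have h1 := (abNil_sl N).bound hD
  have h2 := finrank_sl_add_one N (by omega)
  rw [sq (N ^ 2 / 4)]
  omega

theorem so_bound {N D : ℕ} [LieAlgebra.IsKilling ℂ (so (Fin N) ℂ)]
    (hD : HasList (so (Fin N) ℂ) D) :
    (N / 2 * (N / 2 - 1)) ^ 2 ≤ 2 * (D + N * (N - 1)) := by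
  have h1 := (abNil_so N).bound hD
  have h2 := finrank_so N
  have h3 := finrank_skew (N / 2)
  rw [← h3, ← h2]
  nlinarith

theorem sp_bound {n D : ℕ} [LieAlgebra.IsKilling ℂ (sp (Fin n) ℂ)]
    (hD : HasList (sp (Fin n) ℂ) D) :
    (n * (n + 1)) ^ 2 ≤ 2 * (D + 2 * (n * (2 * n + 1))) := by
  have h1 := (abNil_sp n).bound hD
  have h2 := finrank_sp_le n
  have h3 := finrank_sym n
  rw [← h3]
  nlinarith

end Pool.Agent.Work.MP_3d4872_al.Pb
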