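import Pool.Agent.Work.MP_3d4872_al.Pb.Aut
import Pool.Agent.Work.MP_3d4872_al.Pb.Alg

/-!
# MP_3d4872_al: the number of parameters

Countably many `C¹` families which meet all the classes of compatible brackets: one of them has at
least `2 (s t - dim L)` real parameters, if `L` has families `x_1, .., x_s` and `y_1, .., y_t` as
in `Good`.
-/

set_option autoImplicit false

namespace Pool.Agent.Work.MP_3d4872_al.Pb

open LieAlgebra Module Set Topology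
open scoped NNReal ENNReal

/-- The evaluation of the inverse is smooth. -/
theorem contDiffAt_inv_apply {V : Type*} [NormedAddCommGroup V] [NormedSpace ℂ V]
    [CompleteSpace V] {φ : V →L[ℂ] V} (hφ : IsUnit φ) (v : V) :
    ContDiffAt ℝ 1 (fun ψ : V →L[ℂ] V => Ring.inverse ψ v) φ := by
  obtain ⟨u, rfl⟩ := hφ
  have h1 : ContDiffAt ℂ 1 (Ring.inverse : (V →L[ℂ] V) → (V →L[ℂ] V)) (u : V →L[ℂ] V) :=
    contDiffAt_ringInverse ℂ u
  have h2 : ContDiffAt ℂ 1 (fun ψ : V →L[ℂ] V => Ring.inverse ψ v) (u : V →L[ℂ] V) :=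
    ((ContinuousLinearMap.apply ℂ V v).contDiff.contDiffAt).comp _ h1
  exact h2.restrict_scalars ℝ



variable {n : ℕ}

/-- The formula for `φ⁻¹ β(φ e_j, φ e_k)`, with `β e_l e_m = F l m`. -/
noncomputable def pull (n : ℕ) (F : Fin n → Fin n → (Fin n → ℂ))
    (φ : (Fin n → ℂ) →L[ℂ] (Fin n → ℂ)) : Fin n → Fin n → (Fin n → ℂ) :=
  fun j k => ∑ i, (∑ l, ∑ m, (φ (Pi.single j 1) l * φ (Pi.single k 1) m) * F l m i) •
    Ring.inverse φ (Pi.single i 1)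

theorem contDiffAt_pull {H : Type*} [NormedAddCommGroup H] [NormedSpace ℝ H]
    {F : H → Fin n → Fin n → (Fin n → ℂ)} {p : H}
    (hF : ∀ l m i, ContDiffAt ℝ 1 (fun q => F q l m i) p)
    {φ : (Fin n → ℂ) →L[ℂ] (Fin n → ℂ)} (hφ : IsUnit φ) :
    ContDiffAt ℝ 1 (fun w : H × ((Fin n → ℂ) →L[ℂ] (Fin n → ℂ)) => pull n (F w.1) w.2)
      (p, φ) := by
  have hev : ∀ (j l : Fin n), ContDiffAt ℝ 1
      (fun w : H × ((Fin n → ℂ) →L[ℂ] (Fin n → ℂ)) => w.2 (Pi.single j 1) l) (p, φ) := by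
    intro j l
    have h1 : ContDiff ℂ 1 (fun ψ : (Fin n → ℂ) →L[ℂ] (Fin n → ℂ) => ψ (Pi.single j 1) l) := by
      have h2 : ContDiff ℂ 1 (fun ψ : (Fin n → ℂ) →L[ℂ] (Fin n → ℂ) =>
          ψ (Pi.single j (1 : ℂ))) :=
        (ContinuousLinearMap.apply ℂ (Fin n → ℂ) (Pi.single j (1 : ℂ) : Fin n → ℂ)).contDiff
      exact (contDiff_apply ℂ ℂ l).comp h2
    exact (h1.restrict_scalars ℝ).contDiffAt.comp _ contDiffAt_snd
  have hFF : ∀ l m i, ContDiffAt ℝ 1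
      (fun w : H × ((Fin n → ℂ) →L[ℂ] (Fin n → ℂ)) => F w.1 l m i) (p, φ) := by
    intro l m i
    exact ContDiffAt.comp (p, φ) (hF l m i) contDiffAt_fst
  have hinv : ∀ i, ContDiffAt ℝ 1
      (fun w : H × ((Fin n → ℂ) →L[ℂ] (Fin n → ℂ)) => Ring.inverse w.2 (Pi.single i 1))
      (p, φ) := by
    intro i
    exact ContDiffAt.comp (p, φ) (contDiffAt_inv_apply hφ _) contDiffAt_snd
  apply contDiffAt_pi.2
  intro j
  apply contDiffAt_pi.2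
  intro k
  unfold pull
  apply ContDiffAt.sum
  intro i _
  have hs : ContDiffAt ℝ 1 (fun w : H × ((Fin n → ℂ) →L[ℂ] (Fin n → ℂ)) =>
      ∑ l, ∑ m, (w.2 (Pi.single j 1) l * w.2 (Pi.single k 1) m) * F w.1 l m i) (p, φ) := by
    apply ContDiffAt.sum
    intro l _
    apply ContDiffAt.sum
    intro m _
    exact ((hev j l).mul (hev k m)).mul (hFF l m i)
  exact hs.smul (hinv i)

section

variable {L : Type*} [LieRing L] [LieAlgebra ℂ L] [FiniteDimensional ℂ L]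

/-- The automorphisms in coordinates. -/
def autSet {L : Type*} [LieRing L] [LieAlgebra ℂ L] {n : ℕ} (e : L ≃ₗ[ℂ] (Fin n → ℂ)) :
    Set ((Fin n → ℂ) →L[ℂ] (Fin n → ℂ)) :=
  {φ | ∃ ψ : L ≃ₗ⁅ℂ⁆ L, ∀ X, φ (e X) = e (ψ X)}

theorem autSet_inv {L : Type*} [LieRing L] [LieAlgebra ℂ L] {n : ℕ} (e : L ≃ₗ[ℂ] (Fin n → ℂ))
    {φ : (Fin n → ℂ) →L[ℂ] (Fin n → ℂ)} {ψ : L ≃ₗ⁅ℂ⁆ L} (h : ∀ X, φ (e X) = e (ψ X)) :
    ∃ ρ : (Fin n → ℂ) →L[ℂ] (Fin n → ℂ), ρ * φ = 1 ∧ φ * ρ = 1 ∧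
      ∀ X, ρ (e X) = e (ψ.symm X) := by
  refine ⟨LinearMap.toContinuousLinearMap
    ((e : L →ₗ[ℂ] (Fin n → ℂ)) ∘ₗ (ψ.symm : L →ₗ[ℂ] L) ∘ₗ (e.symm : (Fin n → ℂ) →ₗ[ℂ] L)),
    ?_, ?_, ?_⟩
  · ext1 v
    obtain ⟨X, rfl⟩ := e.surjective v
    rw [ContinuousLinearMap.mul_apply, h]
    simp
  · ext1 v
    obtain ⟨X, rfl⟩ := e.surjective v
    rw [ContinuousLinearMap.mul_apply]
    simp [h]
  · intro X
    simp

theorem locEmb_autSet [LieAlgebra.IsKilling ℂ L] {n : ℕ} (e : L ≃ₗ[ℂ] (Fin n → ℂ)) :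
    LocEmb (Fin n → ℂ) (autSet e) := by
  obtain ⟨z, hz⟩ := exists_zmap L
  set μ : (Fin n → ℂ) →L[ℂ] (Fin n → ℂ) →L[ℂ] (Fin n → ℂ) :=
    LinearMap.toContinuousBilinearMap
      (((ownBracket L).compl₁₂ (e.symm : (Fin n → ℂ) →ₗ[ℂ] L)
        (e.symm : (Fin n → ℂ) →ₗ[ℂ] L)).compr₂ (e : L →ₗ[ℂ] (Fin n → ℂ))) with hμ
  have hμa : ∀ X Y : L, μ (e X) (e Y) = e ⁅X, Y⁆ := by
    intro X Y
    rw [hμ, LinearMap.toContinuousBilinearMap_apply]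
    simp
  set z' : ((Fin n → ℂ) →L[ℂ] (Fin n → ℂ)) →ₗ[ℂ] (Fin n → ℂ) :=
    { toFun := fun D => e (z ((e.symm : (Fin n → ℂ) →ₗ[ℂ] L) ∘ₗ
        (D : (Fin n → ℂ) →ₗ[ℂ] (Fin n → ℂ)) ∘ₗ (e : L →ₗ[ℂ] (Fin n → ℂ))))
      map_add' := by
        intro D D'
        rw [← map_add, ← map_add]
        congr 2
        ext X
        simp
      map_smul' := by
        intro c D
        rw [RingHom.id_apply, ← map_smul, ← map_smul]
        congr 2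
        ext X
        simp } with hz'
  apply locEmb_aut μ z'
  · intro D hD h0
    set D' : L →ₗ[ℂ] L := (e.symm : (Fin n → ℂ) →ₗ[ℂ] L) ∘ₗ
        (D : (Fin n → ℂ) →ₗ[ℂ] (Fin n → ℂ)) ∘ₗ (e : L →ₗ[ℂ] (Fin n → ℂ)) with hD'
    have hDe : ∀ X, e (D' X) = D (e X) := fun X => by simp [hD']
    have h1 : z D' = 0 := by
      have h2 : e (z D') = 0 := h0
      simpa using h2
    have h3 : D' = 0 := by
      apply hz D' _ h1
      intro X Y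
      apply e.injective
      rw [hDe, ← hμa, hD, ← hDe, ← hDe, hμa, hμa, map_add]
    ext1 v
    obtain ⟨X, rfl⟩ := e.surjective v
    rw [← hDe, h3]
    simp
  · rintro φ ⟨ψ, hψ⟩
    obtain ⟨ρ, h1, h2, -⟩ := autSet_inv e hψ
    refine ⟨⟨ρ, h1, h2⟩, fun x y => ?_⟩
    obtain ⟨X, rfl⟩ := e.surjective x
    obtain ⟨Y, rfl⟩ := e.surjective y
    rw [hμa, hψ, hψ, hψ, hμa, LieEquiv.map_lie]

end

end Pool.Agent.Work.MP_3d4872_al.Pb
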