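import Pool.Agent.Work.MP_3d4872_al.Pb.Classical

/-!
# MP_3d4872_al: abelian subspaces and dimensions of the orthogonal and symplectic Lie algebras
-/

set_option autoImplicit false
set_option linter.unusedSectionVars false

namespace Pool.Agent.Work.MP_3d4872_al.Pb

open Matrix LieAlgebra Module LieAlgebra.SpecialLinear LieAlgebra.Orthogonal LieAlgebra.Symplectic

attribute [local instance 100] LieRing.ofAssociativeRing

section SP

/-- The block above the diagonal. -/
noncomputable def spBlock (n : ℕ) : symSub (Fin n) 1 →ₗ[ℂ] sp (Fin n) ℂ where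
  toFun B := ⟨fromBlocks 0 B.1 0 0, by
    change _ ∈ skewAdjointMatricesLieSubalgebra (Matrix.J (Fin n) ℂ)
    rw [mem_skew]
    have h : B.1ᵀ = B.1 := by
      have := mem_symSub.1 B.2
      rwa [one_smul] at this
    rw [Matrix.J, fromBlocks_transpose, fromBlocks_multiply, fromBlocks_multiply, fromBlocks_neg]
    simp [h]⟩
  map_add' B B' := by
    apply Subtype.ext
    change fromBlocks 0 (B.1 + B'.1) 0 0 = fromBlocks 0 B.1 0 0 + fromBlocks 0 B'.1 0 0
    rw [fromBlocks_add]
    simp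
  map_smul' c B := by
    apply Subtype.ext
    change fromBlocks 0 (c • B.1) 0 0 = c • fromBlocks 0 B.1 0 0
    rw [fromBlocks_smul]
    simp

theorem spBlock_mul (n : ℕ) (B B' : symSub (Fin n) 1) :
    (spBlock n B).val * (spBlock n B').val = 0 := by
  change fromBlocks 0 B.1 0 0 * fromBlocks 0 B'.1 0 0 = 0
  rw [fromBlocks_multiply]
  simp

theorem abNil_sp (n : ℕ) : AbNil (sp (Fin n) ℂ) (finrank ℂ (symSub (Fin n) 1)) :=
  AbNil.of_injective (spBlock n) (fun B B' h => by
      have h1 := congrArg Subtype.val h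
      change fromBlocks 0 B.1 0 0 = fromBlocks 0 B'.1 0 0 at h1
      exact Subtype.ext (fromBlocks_inj.1 h1).2.1)
    (fun B B' => by
      apply Subtype.ext
      change (spBlock n B).val * (spBlock n B').val
        - (spBlock n B').val * (spBlock n B).val = 0
      rw [spBlock_mul, spBlock_mul, sub_zero])
    (fun B => ad_nilpotent_of_sq _ _ (spBlock_mul n B B))

/-- `X ↦ J X` is symmetric. -/
noncomputable def spSym (n : ℕ) : sp (Fin n) ℂ →ₗ[ℂ] symSub (Fin (n + n)) 1 where
  toFun X := ⟨(Matrix.J (Fin n) ℂ * X.val).submatrix finSumFinEquiv.symm finSumFinEquiv.symm, by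
    have h := (mem_skew (Matrix.J (Fin n) ℂ) X.val).1 X.2
    rw [mem_symSub, one_smul, Matrix.transpose_submatrix]
    congr 1
    rw [Matrix.transpose_mul, Matrix.J_transpose, Matrix.mul_neg, h, neg_neg]⟩
  map_add' X Y := by
    apply Subtype.ext
    change (Matrix.J (Fin n) ℂ * (X.val + Y.val)).submatrix _ _ = _
    rw [Matrix.mul_add]
    rfl
  map_smul' c X := by
    apply Subtype.ext
    change (Matrix.J (Fin n) ℂ * (c • X.val)).submatrix _ _ = _
    rw [Matrix.mul_smul]
    rfl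

theorem spSym_injective (n : ℕ) : Function.Injective (spSym n) := by
  intro X Y h
  have h1 := congrArg Subtype.val h
  change (Matrix.J (Fin n) ℂ * X.val).submatrix finSumFinEquiv.symm finSumFinEquiv.symm
    = (Matrix.J (Fin n) ℂ * Y.val).submatrix finSumFinEquiv.symm finSumFinEquiv.symm at h1
  have h2 : Matrix.J (Fin n) ℂ * X.val = Matrix.J (Fin n) ℂ * Y.val := by
    have h3 := congrArg (fun M => Matrix.submatrix M finSumFinEquiv finSumFinEquiv) h1
    simpa [Matrix.submatrix_submatrix] using h3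
  apply Subtype.ext
  have h4 : Matrix.J (Fin n) ℂ * (Matrix.J (Fin n) ℂ * X.val)
      = Matrix.J (Fin n) ℂ * (Matrix.J (Fin n) ℂ * Y.val) := by rw [h2]
  rw [← mul_assoc, ← mul_assoc, Matrix.J_squared] at h4
  simpa using h4

theorem finrank_sp_le (n : ℕ) : finrank ℂ (sp (Fin n) ℂ) ≤ n * (2 * n + 1) := by
  have h1 := LinearMap.finrank_le_finrank_of_injective (spSym_injective n)
  have h2 := finrank_sym (n + n)
  have h3 : 2 * finrank ℂ (sp (Fin n) ℂ) ≤ 2 * (n * (2 * n + 1)) := by
    calc 2 * finrank ℂ (sp (Fin n) ℂ) ≤ 2 * finrank ℂ (symSub (Fin (n + n)) 1) :=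
          Nat.mul_le_mul_left 2 h1
      _ = (n + n) * (n + n + 1) := h2
      _ = 2 * (n * (2 * n + 1)) := by ring
  omega

end SP

section SO

theorem finrank_so (N : ℕ) : 2 * finrank ℂ (so (Fin N) ℂ) = N * (N - 1) := by
  have h : ∀ A : Matrix (Fin N) (Fin N) ℂ, A ∈ (so (Fin N) ℂ).toSubmodule ↔
      A ∈ symSub (Fin N) (-1) := by
    intro A
    rw [mem_symSub, neg_one_smul]
    exact mem_so (Fin N) ℂ A
  have h1 : (so (Fin N) ℂ).toSubmodule = symSub (Fin N) (-1) := Submodule.ext h
  rw [← finrank_skew N, ← h1]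
  rfl

/-- The isotropic vectors `e_{2k} + i e_{2k+1}`. -/
noncomputable def iso (N : ℕ) : Matrix (Fin N) (Fin (N / 2)) ℂ :=
  Matrix.of fun r k => if r.1 = 2 * k.1 then 1 else if r.1 = 2 * k.1 + 1 then Complex.I else 0

/-- A left inverse. -/
noncomputable def iso' (N : ℕ) : Matrix (Fin (N / 2)) (Fin N) ℂ :=
  Matrix.of fun k r => if r.1 = 2 * k.1 then 1 else 0

theorem iso_transpose_mul (N : ℕ) : (iso N)ᵀ * iso N = 0 := by
  ext k l
  rw [Matrix.mul_apply, Matrix.zero_apply]
  simp only [Matrix.transpose_apply, iso, Matrix.of_apply]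
  by_cases hkl : k = l
  · subst hkl
    have hk : 2 * k.1 + 1 < N := by have := k.2; omega
    have hk' : 2 * k.1 < N := by omega
    rw [Finset.sum_eq_add (⟨2 * k.1, hk'⟩ : Fin N) (⟨2 * k.1 + 1, hk⟩ : Fin N)]
    · simp
    · intro h
      have := congrArg Fin.val h
      simp at this
    · intro r _ hr
      have h1 : r.1 ≠ 2 * k.1 := fun h => hr.1 (Fin.ext h)
      have h2 : r.1 ≠ 2 * k.1 + 1 := fun h => hr.2 (Fin.ext h)
      simp [h1, h2]
    · intro h
      exact absurd (Finset.mem_univ _) h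
    · intro h
      exact absurd (Finset.mem_univ _) h
  · have h0 : k.1 ≠ l.1 := fun h => hkl (Fin.ext h)
    refine Finset.sum_eq_zero fun r _ => ?_
    by_cases h1 : r.1 = 2 * k.1
    · have h2 : r.1 ≠ 2 * l.1 := by omega
      have h3 : r.1 ≠ 2 * l.1 + 1 := by omega
      simp [h2, h3]
    · by_cases h2 : r.1 = 2 * k.1 + 1
      · have h3 : r.1 ≠ 2 * l.1 := by omega
        have h4 : r.1 ≠ 2 * l.1 + 1 := by omega
        simp [h3, h4]
      · simp [h1, h2]

theorem iso'_mul (N : ℕ) : iso' N * iso N = 1 := by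
  ext k l
  rw [Matrix.mul_apply, Matrix.one_apply]
  simp only [iso, iso', Matrix.of_apply]
  have hk' : 2 * k.1 < N := by have := k.2; omega
  rw [Finset.sum_eq_single (⟨2 * k.1, hk'⟩ : Fin N)]
  · by_cases hkl : k = l
    · subst hkl
      simp
    · have h0 : k.1 ≠ l.1 := fun h => hkl (Fin.ext h)
      have h1 : ¬ (2 * k.1 = 2 * l.1) := by omega
      have h2 : ¬ (2 * k.1 = 2 * l.1 + 1) := by omega
      simp [hkl, h1, h2]
  · intro r _ hr
    have h1 : r.1 ≠ 2 * k.1 := fun h => hr (Fin.ext h)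
    simp [h1]
  · intro h
    exact absurd (Finset.mem_univ _) h

/-- `A ↦ P A Pᵀ`. -/
noncomputable def soBlock (N : ℕ) : symSub (Fin (N / 2)) (-1) →ₗ[ℂ] so (Fin N) ℂ where
  toFun A := ⟨iso N * A.1 * (iso N)ᵀ, by
    rw [mem_so, Matrix.transpose_mul, Matrix.transpose_mul, Matrix.transpose_transpose,
      mem_symSub.1 A.2]
    rw [neg_one_smul, Matrix.neg_mul, Matrix.mul_neg, ← Matrix.mul_assoc]⟩
  map_add' A B := by
    apply Subtype.ext
    change iso N * (A.1 + B.1) * (iso N)ᵀ = iso N * A.1 * (iso N)ᵀ + iso N * B.1 * (iso N)ᵀ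
    rw [Matrix.mul_add, Matrix.add_mul]
  map_smul' c A := by
    apply Subtype.ext
    change iso N * (c • A.1) * (iso N)ᵀ = c • (iso N * A.1 * (iso N)ᵀ)
    rw [Matrix.mul_smul, Matrix.smul_mul]

theorem soBlock_mul (N : ℕ) (A B : symSub (Fin (N / 2)) (-1)) :
    (soBlock N A).val * (soBlock N B).val = 0 := by
  change iso N * A.1 * (iso N)ᵀ * (iso N * B.1 * (iso N)ᵀ) = 0
  rw [Matrix.mul_assoc (iso N * A.1), Matrix.mul_assoc (iso N) B.1,
    ← Matrix.mul_assoc (iso N)ᵀ, iso_transpose_mul]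
  simp

theorem abNil_so (N : ℕ) : AbNil (so (Fin N) ℂ) (finrank ℂ (symSub (Fin (N / 2)) (-1))) :=
  AbNil.of_injective (soBlock N) (fun A B h => by
      have h1 := congrArg Subtype.val h
      change iso N * A.1 * (iso N)ᵀ = iso N * B.1 * (iso N)ᵀ at h1
      have h2 : ∀ C : Matrix (Fin (N / 2)) (Fin (N / 2)) ℂ,
          iso' N * (iso N * C * (iso N)ᵀ) * (iso' N)ᵀ = C := by
        intro C
        have h3 : (iso N)ᵀ * (iso' N)ᵀ = 1 := by
          rw [← Matrix.transpose_mul, iso'_mul, Matrix.transpose_one]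
        rw [Matrix.mul_assoc (iso' N), Matrix.mul_assoc (iso N * C), h3, Matrix.mul_one,
          ← Matrix.mul_assoc, iso'_mul, Matrix.one_mul]
      apply Subtype.ext
      rw [← h2 A.1, h1, h2])
    (fun A B => by
      apply Subtype.ext
      change (soBlock N A).val * (soBlock N B).val
        - (soBlock N B).val * (soBlock N A).val = 0
      rw [soBlock_mul, soBlock_mul, sub_zero])
    (fun A => ad_nilpotent_of_sq _ _ (soBlock_mul N A A))

end SO

end Pool.Agent.Work.MP_3d4872_al.Pb
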